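import Pool.Agent.Lib.MP_0820eb_co.Sylow

open Pool.Agent.Lib.MP_0820eb_co

/-- If an abelian group of order divisible by four contains a difference set with `λ = 2`, then
its Sylow 2-subgroup has order 4 or 16. -/
theorem Pool.Agent.Lib.MP_0820eb_co.Old.biplaneTwoPart :
    ∀ (G : Type) [CommGroup G] [Finite G] (D : Set G),
      (∀ g : G, g ≠ 1 → Set.ncard {p : G × G | p.1 ∈ D ∧ p.2 ∈ D ∧ p.1 * p.2⁻¹ = g} = 2) →
      4 ∣ Nat.card G → Nat.card G % 8 = 4 ∨ Nat.card G % 32 = 16 := by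
  intro G _ _ D hD
  classical
  have := Fintype.ofFinite G
  rw [Nat.card_eq_fintype_card]
  refine sylow_card (D := D.toFinset) fun g hg => ?_
  rw [← hD g hg, ← Set.ncard_coe_finset,
    ← Set.ncard_image_of_injective _ (f := fun y => (g * y, y)) fun a b h => congrArg Prod.snd h]
  congr 1
  ext ⟨x, y⟩
  simp only [Set.mem_image, Finset.mem_coe, mem_Rep, Set.mem_toFinset, Prod.mk.injEq,
    Set.mem_ofPred_eq]
  constructor
  · rintro ⟨z, ⟨h1, h2⟩, rfl, rfl⟩
    exact ⟨h2, h1, mul_inv_cancel_right _ _⟩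
  · rintro ⟨h1, h2, rfl⟩
    exact ⟨y, ⟨h2, by simpa using h1⟩, by simp, rfl⟩
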